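import Pool.Agent.H.MP_0fd30f_pr.Final

/-!
# Dense random regular graphs are reconstructable from their 1-neighbourhoods

The definitions are in `Pool.Agent.H.MP_0fd30f_pr.Defs`.

Outline. Let `H` have the same 1-neighbourhoods as `G`; transport everything to the vertex set of
`G`, so that for every `v` there is a bijection `ψ v : N_G(v) → N_H(v)` which is an isomorphism of the
induced subgraphs. One shows that with high probability every `ψ v` is the identity.

* Probabilities in the uniform random regular graph are bounded (a) by switchings for upper tails
  (`P(F ⊆ G) ≤ (2d/n)^|F|`), and (b) by transfer from the uniform random graph with `nd/2` edges, in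
  which being `d`-regular has probability at least `exp(-O(n log n))` (`Schur.lean`).
* Dense case `d ≥ 10^(-20) n`: the overlap maps `ψ w'⁻¹ ∘ ψ v` are partial self-isomorphisms of `G`
  on codegree-many vertices; these are the identity by a rigidity estimate (`Rigid.lean`), and this
  is enough (`Dense.lean`).
* Sparse case: a random sample of `m` neighbourhoods is used in a union bound over all systems of
  charts on the sample (`Sparse3.respect_bound`), which shows that most pairs of charts agree
  (`Sampling.lean`); a majority vote gives a vertex map moving few edges (`Majority.lean`,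
  `Moved.lean`), and expansion / covering estimates (`Sparse1`-`Sparse3`, `Fine`-`Fine3`) rule out
  a nonempty set of moved edges.
-/

open Filter Topology
open Pool.Agent.H.MP_0fd30f_pr

namespace Pool.Agent.Results.MP_0fd30f_pr.DenseReconstructable

/-- **Main result.** For every `ε > 0` and every sequence `(d_n)` with `n * d_n` even and
`n^(1/2+ε) ≤ d_n ≤ n/2` for all large `n`, the probability that a uniformly random `d_n`-regular
graph on `n` vertices is reconstructable from its 1-neighbourhoods tends to `1`. -/
theorem result (ε : ℝ) (hε : 0 < ε) (d : ℕ → ℕ) (heven : ∀ᶠ n : ℕ in atTop, Even (n * d n))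
    (hd : ∀ᶠ n : ℕ in atTop, (n : ℝ) ^ (1 / 2 + ε) ≤ d n ∧ (d n : ℝ) ≤ (n : ℝ) / 2) :
    Tendsto (fun n => probReconstructable n (d n)) atTop (𝓝 1) :=
  main ε hε d heven hd

end Pool.Agent.Results.MP_0fd30f_pr.DenseReconstructable
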